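import Pool.Agent.W516.K3.Defs4

set_option autoImplicit false

/-! # Project DH, part KXT (helper108) -/

namespace Pool.Agent.W108.DH

open Module TensorProduct Pool.Agent.W516.K3

section
variable {F T : Type} [Field F] [AddCommGroup T] [Module F T] {κ : Type} [Fintype κ]
  [DecidableEq κ]

/-- Killing can be checked on basis vectors. -/
theorem killsM_of_basis {ι : Type} [Finite ι] (e : Basis ι F T) (X : Module.End F T)
    (φ : MultilinearMap F (fun _ : κ => T) F)
    (h : ∀ I : κ → ι, ∑ k, φ (Function.update (fun l => e (I l)) k (X (e (I k)))) = 0) :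
    KillsM X φ := by
  let D : MultilinearMap F (fun _ : κ => T) F :=
    ∑ k, φ.compLinearMap (fun l => if l = k then X else LinearMap.id)
  have hD : ∀ v, D v = ∑ k, φ (Function.update v k (X (v k))) := by
    intro v
    change (∑ k, φ.compLinearMap (fun l => if l = k then X else LinearMap.id)) v = _
    rw [sum_apply]
    refine Finset.sum_congr rfl fun k _ => ?_
    rw [MultilinearMap.compLinearMap_apply]
    congr 1
    funext l
    by_cases hl : l = k
    · subst hl
      rw [Function.update_self, if_pos rfl]
    · rw [Function.update_of_ne hl, if_neg hl]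
      rfl
  have h0 : D = 0 := by
    refine Basis.ext_multilinear (fun _ => e) fun I => ?_
    rw [hD, zero_apply]
    exact h I
  intro v
  rw [← hD, h0, zero_apply]

theorem killsM_zero (φ : MultilinearMap F (fun _ : κ => T) F) :
    KillsM (0 : Module.End F T) φ := by
  intro v
  refine Finset.sum_eq_zero fun j _ => ?_
  rw [LinearMap.zero_apply]
  exact φ.map_update_zero v j

theorem killsM_add {X Y : Module.End F T} {φ : MultilinearMap F (fun _ : κ => T) F}
    (hX : KillsM X φ) (hY : KillsM Y φ) : KillsM (X + Y) φ := by
  intro v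
  have h1 : ∀ j, φ (Function.update v j ((X + Y) (v j))) =
      φ (Function.update v j (X (v j))) + φ (Function.update v j (Y (v j))) := by
    intro j
    rw [LinearMap.add_apply, MultilinearMap.map_update_add]
  simp only [h1]
  rw [Finset.sum_add_distrib, hX v, hY v, add_zero]

theorem killsM_smul {X : Module.End F T} {φ : MultilinearMap F (fun _ : κ => T) F} (a : F)
    (hX : KillsM X φ) : KillsM (a • X) φ := by
  intro v
  have h1 : ∀ j, φ (Function.update v j ((a • X) (v j))) =
      a * φ (Function.update v j (X (v j))) := by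
    intro j
    rw [LinearMap.smul_apply, MultilinearMap.map_update_smul, smul_eq_mul]
  simp only [h1]
  rw [← Finset.mul_sum, hX v, mul_zero]

end

theorem kills_ext {k L H : Type} [Field k] [Field L] [Algebra k L] [AddCommGroup H] [Module k H]
    [FiniteDimensional k H] {κ : Type} [Fintype κ] [DecidableEq κ]
    (φ : MultilinearMap k (fun _ : κ => H) k)
    (Φ : MultilinearMap L (fun _ : κ => L ⊗[k] H) L)
    (h : ∀ v : κ → H, Φ (fun l => (1 : L) ⊗ₜ[k] v l) = algebraMap k L (φ v))
    (Z : Module.End k H) (hZ : KillsM Z φ) : KillsM (Z.baseChange L) Φ := by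
  refine killsM_of_basis ((Module.finBasis k H).baseChange L) _ _ fun I => ?_
  have h2 : ∀ j, Function.update (fun l => (Module.finBasis k H).baseChange L (I l)) j
      ((Z.baseChange L) ((Module.finBasis k H).baseChange L (I j))) =
      fun l => (1 : L) ⊗ₜ[k] Function.update (fun l => Module.finBasis k H (I l)) j
        (Z (Module.finBasis k H (I j))) l := by
    intro j
    funext l
    by_cases hl : l = j
    · subst hl
      rw [Function.update_self, Function.update_self, Basis.baseChange_apply,
        LinearMap.baseChange_tmul]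
    · rw [Function.update_of_ne hl, Function.update_of_ne hl, Basis.baseChange_apply]
  simp only [h2, h]
  rw [← map_sum]
  have h3 := hZ (fun l => Module.finBasis k H (I l))
  rw [h3, map_zero]

theorem gx_tmul {k L T H : Type} [Field k] [Field L] [Algebra k L]
    [AddCommGroup T] [Module k T] [AddCommGroup H] [Module k H] (γ : T →ₗ[k] Module.End k H)
    (a : L) (t : T) : gx L γ (a ⊗ₜ[k] t) = a • (γ t).baseChange L := by
  unfold gx
  rw [LinearMap.liftBaseChange_tmul]
  rfl

/-- **KXT** -/
theorem T_KXT : S_KXT := by
  intro k L T H _ _ _ _ _ _ _ _ _ _ _ γ κ _ _ φ Φ hΦ hγ u v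
  induction u using TensorProduct.induction_on with
  | zero =>
    have e : gx L γ 0 * gx L γ v - gx L γ v * gx L γ 0 = 0 := by
      refine LinearMap.ext fun x => ?_
      simp
    rw [e]
    exact killsM_zero Φ
  | add u u' h h' =>
    have e : gx L γ (u + u') * gx L γ v - gx L γ v * gx L γ (u + u') =
        (gx L γ u * gx L γ v - gx L γ v * gx L γ u) +
        (gx L γ u' * gx L γ v - gx L γ v * gx L γ u') := by
      rw [map_add]
      noncomm_ring
    rw [e]
    exact killsM_add h h'
  | tmul a t =>
    induction v using TensorProduct.induction_on with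
    | zero =>
      have e : gx L γ (a ⊗ₜ[k] t) * gx L γ 0 - gx L γ 0 * gx L γ (a ⊗ₜ[k] t) = 0 := by
        refine LinearMap.ext fun x => ?_
        simp
      rw [e]
      exact killsM_zero Φ
    | add v v' h h' =>
      have e : gx L γ (a ⊗ₜ[k] t) * gx L γ (v + v') - gx L γ (v + v') * gx L γ (a ⊗ₜ[k] t) =
          (gx L γ (a ⊗ₜ[k] t) * gx L γ v - gx L γ v * gx L γ (a ⊗ₜ[k] t)) +
          (gx L γ (a ⊗ₜ[k] t) * gx L γ v' - gx L γ v' * gx L γ (a ⊗ₜ[k] t)) := by
        rw [map_add]
        noncomm_ring
      rw [e]
      exact killsM_add h h'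
    | tmul b s =>
      have e : gx L γ (a ⊗ₜ[k] t) * gx L γ (b ⊗ₜ[k] s) -
          gx L γ (b ⊗ₜ[k] s) * gx L γ (a ⊗ₜ[k] t) =
          (a * b) • (γ t * γ s - γ s * γ t).baseChange L := by
        rw [gx_tmul, gx_tmul, LinearMap.baseChange_sub, LinearMap.baseChange_mul,
          LinearMap.baseChange_mul, smul_mul_smul_comm, smul_mul_smul_comm, mul_comm b a]
        refine LinearMap.ext fun x => ?_
        simp only [LinearMap.sub_apply, LinearMap.smul_apply]
        exact (smul_sub _ _ _).symm
      rw [e]
      exact killsM_smul _ (kills_ext φ Φ hΦ _ (hγ t s))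

end Pool.Agent.W108.DH
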